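import Pool.Agent.Helper32.AG.Goals

set_option autoImplicit false

namespace Pool.Agent.Helper73.AG

open Pool.Agent.Helper32.AG

/-- growth -/
theorem grow (T : ℕ) (hT : 18 ≤ T) : ((2 * T - 3) ^ 2 + 12) ^ 4 ≤ 4096 * 3 ^ T := by
  induction T, hT using Nat.le_induction with
  | base => norm_num
  | succ n hn ih =>
    obtain ⟨m, rfl⟩ : ∃ m, n = m + 18 := ⟨n - 18, by omega⟩
    have e1 : 2 * (m + 18) - 3 = 2 * m + 33 := by omega
    have e2 : 2 * (m + 18 + 1) - 3 = 2 * m + 35 := by omega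
    rw [e1] at ih
    rw [e2, pow_succ 3 (m + 18)]
    -- ((2m+35)^2+12)^4 ≤ 3 ((2m+33)^2+12)^4
    have h1 : 4 * ((2 * m + 35) ^ 2 + 12) ≤ 5 * ((2 * m + 33) ^ 2 + 12) := by nlinarith
    have h2 : (4 * ((2 * m + 35) ^ 2 + 12)) ^ 4 ≤ (5 * ((2 * m + 33) ^ 2 + 12)) ^ 4 :=
      Nat.pow_le_pow_left h1 4
    rw [mul_pow, mul_pow] at h2
    generalize ((2 * m + 35) ^ 2 + 12) ^ 4 = X at h2 ⊢
    generalize ((2 * m + 33) ^ 2 + 12) ^ 4 = Y at h2 ih
    generalize 3 ^ (m + 18) = Z at ih ⊢
    norm_num at h2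
    omega

theorem grow1 (q : ℕ) (hq : 5 ≤ q) : q ^ 4 ≤ 3 ^ (q + 1) := by
  induction q, hq using Nat.le_induction with
  | base => norm_num
  | succ n hn ih =>
    rw [pow_succ 3 (n + 1)]
    have h1 : 5 * (n + 1) ≤ 6 * n + 0 := by omega
    have h2 : (5 * (n + 1)) ^ 4 ≤ (6 * n) ^ 4 := Nat.pow_le_pow_left (by omega) 4
    rw [mul_pow, mul_pow] at h2
    generalize (n + 1) ^ 4 = X at h2 ⊢
    generalize n ^ 4 = Y at h2 ih
    generalize 3 ^ (n + 1) = Z at ih ⊢
    norm_num at h2
    omega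

theorem n2 : N2Stmt := by
  intro p a e α kk c r hp hp2 ha hq he hα hea hpe h9 h25 hkk hc hr hc2 hr2
  set T := kk + r with hT
  obtain ⟨w, hw⟩ : ∃ w, p ^ a = w + 1 := ⟨p ^ a - 1, by omega⟩
  have hqw : p ^ a - 1 = w := by omega
  rw [hqw] at hc2 hr2 ⊢
  -- the key bound
  have key : 2 * w + e ^ 2 + 3 * e ≤ 2 * e * T + 1 := by
    have h1 : α * (2 * w + e ^ 2 + 3 * e) ≤ α * (2 * e * T + 1) := by
      have hs : 2 * (α * w) ≤ α ^ 2 + w ^ 2 := by
        have := two_mul_le_add_sq (α : ℤ) (w : ℤ)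
        zify
        nlinarith
      rw [hT]
      nlinarith
    exact Nat.le_of_mul_le_mul_left h1 hα
  have hexp : T ≤ kk + c + r - 1 := by omega
  have fin : ∀ S : ℕ, (p ^ a) ^ 2 * w ^ 2 ≤ 3 ^ S → S ≤ kk + c + r - 1 →
      (p ^ a) ^ 2 * w ^ 2 ≤ 3 ^ (kk + c + r - 1) := fun S h1 h2 =>
    h1.trans (Nat.pow_le_pow_right (by norm_num) h2)
  have hw4 : (p ^ a) ^ 2 * w ^ 2 ≤ (p ^ a) ^ 4 := by
    have : w ^ 2 ≤ (p ^ a) ^ 2 := Nat.pow_le_pow_left (by omega) 2
    calc (p ^ a) ^ 2 * w ^ 2 ≤ (p ^ a) ^ 2 * (p ^ a) ^ 2 := Nat.mul_le_mul_left _ this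
      _ = (p ^ a) ^ 4 := by ring
  by_cases he1 : e = 1
  · subst he1
    have h1 : p ^ a + 1 ≤ T := by omega
    exact fin T (hw4.trans ((grow1 _ hq).trans (Nat.pow_le_pow_right (by norm_num) h1))) hexp
  by_cases hT18 : 18 ≤ T
  · -- 8 w ≤ (2T-3)^2 + 4
    have h1 : 8 * (w + 1) ≤ (2 * T - 3) ^ 2 + 12 := by
      obtain ⟨m, hm⟩ : ∃ m, 2 * T = m + 3 := ⟨2 * T - 3, by omega⟩
      have e1 : 2 * T - 3 = m := by omega
      rw [e1]
      have h2 : 2 * w + e ^ 2 ≤ e * m + 1 := by
        have : 2 * e * T = e * (2 * T) := by ring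
        rw [this, hm] at key
        nlinarith
      zify at h2 ⊢
      nlinarith [sq_nonneg ((m : ℤ) - 2 * e)]
    have h3 : (8 * (w + 1)) ^ 4 ≤ ((2 * T - 3) ^ 2 + 12) ^ 4 := Nat.pow_le_pow_left h1 4
    have h4 := h3.trans (grow T hT18)
    rw [mul_pow] at h4
    have h5 : (w + 1) ^ 4 ≤ 3 ^ T := by
      have : (8 : ℕ) ^ 4 = 4096 := by norm_num
      rw [this] at h4
      exact Nat.le_of_mul_le_mul_left h4 (by norm_num)
    rw [hw] at hw4 ⊢
    rw [hw] at fin
    exact fin T (hw4.trans h5) hexp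
  · -- T ≤ 17
    have hT17 : T ≤ 17 := by omega
    have ha2 : 2 ≤ a := by
      by_contra hcon
      have : a = 1 := by omega
      subst this
      simp at hea
      exact he1 hea
    have hw121 : w + 1 ≤ 121 := by
      have h2 : 2 * w + e ^ 2 + 3 * e ≤ 34 * e + 1 := by nlinarith
      nlinarith [sq_nonneg ((e : ℤ) - 15), sq_nonneg ((e : ℤ) - 16)]
    have hp3 : 3 ≤ p := by
      have := hp.two_le
      omega
    have hpa : p ^ 2 ≤ p ^ a := Nat.pow_le_pow_right (by omega) ha2
    have hp11 : p ≤ 11 := by nlinarith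
    have ha4 : a ≤ 4 := by
      by_contra hcon
      have h3 : 3 ^ 5 ≤ p ^ a :=
        (Nat.pow_le_pow_left hp3 5).trans (Nat.pow_le_pow_right (by omega) (by omega))
      norm_num at h3
      omega
    have he16 : e ≤ 16 := (Nat.le_of_dvd (by positivity) hea).trans (by nlinarith)
    have he2 : 2 ≤ e := by omega
    have goalT : ∀ n : ℕ, (w + 1) ^ 2 * w ^ 2 ≤ 3 ^ n → n ≤ T →
        (p ^ a) ^ 2 * w ^ 2 ≤ 3 ^ (kk + c + r - 1) := by
      intro n h1 h2
      rw [hw] at fin ⊢
      exact fin n h1 (h2.trans hexp)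
    have goalS : ∀ n : ℕ, (w + 1) ^ 2 * w ^ 2 ≤ 3 ^ n → n ≤ T + (c - 1) →
        (p ^ a) ^ 2 * w ^ 2 ≤ 3 ^ (kk + c + r - 1) := by
      intro n h1 h2
      rw [hw] at fin ⊢
      exact fin n h1 (by omega)
    clear fin hexp hw4
    interval_cases a
    · -- a = 2: e = 2 or 4
      have he4 : e = 2 ∨ e = 4 := by
        have h4 : e ≤ 4 := Nat.le_of_dvd (by norm_num) hea
        interval_cases e
        · exact Or.inl rfl
        · exfalso
          revert hea
          norm_num
        · exact Or.inr rfl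
      interval_cases p
      · exact absurd ⟨by norm_num, he2⟩ h9
      · exfalso; revert hp; norm_num
      · obtain rfl : w = 24 := by omega
        rcases he4 with rfl | rfl
        · exact goalT 12 (by norm_num) (by omega)
        · exact absurd ⟨by norm_num, rfl⟩ h25
      · exfalso; revert hp; norm_num
      · obtain rfl : w = 48 := by omega
        rcases he4 with rfl | rfl
        · exact goalT 15 (by norm_num) (by omega)
        · exact goalT 15 (by norm_num) (by omega)
      · exfalso; revert hp; norm_num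
      · exfalso; revert hp; norm_num
      · exfalso; revert hp; norm_num
      · obtain rfl : w = 120 := by omega
        exfalso
        rcases he4 with rfl | rfl <;> omega
    · -- a = 3
      have hp4 : p ≤ 4 := by
        by_contra hcon
        have : 5 ^ 3 ≤ p ^ 3 := Nat.pow_le_pow_left (by omega) 3
        omega
      exfalso
      interval_cases p
      · have h9' : e ≤ 9 := Nat.le_of_dvd (by norm_num) hea
        interval_cases e <;> omega
      · revert hp; norm_num
    · -- a = 4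
      have hp4 : p ≤ 3 := by
        by_contra hcon
        have : 4 ^ 4 ≤ p ^ 4 := Nat.pow_le_pow_left (by omega) 4
        omega
      obtain rfl : p = 3 := by omega
      obtain rfl : w = 80 := by omega
      have he' : e = 2 ∨ e = 4 ∨ e = 8 ∨ e = 16 := by
        interval_cases e <;> omega
      rcases he' with rfl | rfl | rfl | rfl
      · exfalso; omega
      · exfalso; omega
      · exact goalT 16 (by norm_num) (by omega)
      · by_cases hc1 : c = 1
        · exfalso
          subst hc1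
          have h1 : α ≤ 5 := by omega
          have h3 : r * (2 * 16 * α) ≤ 17 * (2 * 16 * 5) :=
            Nat.mul_le_mul (by omega) (by omega)
          omega
        · exact goalS 16 (by norm_num) (by omega)

end Pool.Agent.Helper73.AG
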